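import Mathlib

/-!
Van Kampen obstruction for the complete graph `K₅`: ten arcs in the plane joining five points
pairwise cannot be such that vertex-disjoint edges are disjoint.  In particular `K₅` does not
embed into the plane.
-/

open Complex Set

namespace Pool.Agent.H93K

/-- A continuous nowhere vanishing function on a simply connected, locally path connected space
has a continuous logarithm. -/
lemma exists_log {X : Type*} [TopologicalSpace X] [SimplyConnectedSpace X]
    [LocallyPathConnectedSpace X] (x₀ : X) (f : X → ℂ) (hf : Continuous f) (h0 : ∀ x, f x ≠ 0) :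
    ∃ L : X → ℂ, Continuous L ∧ ∀ x, exp (L x) = f x := by
  obtain ⟨F, ⟨-, hF⟩, -⟩ := Complex.isCoveringMapOn_exp.existsUnique_continuousMap_lifts
    (⟨f, hf⟩ : C(X, ℂ)) (exp_log (h0 x₀)) (fun x => h0 x)
  exact ⟨F, F.continuous, fun x => congr_fun hF x⟩

/-- Two continuous logarithms of the same function differ by a constant. -/
lemma log_unique {X : Type*} [TopologicalSpace X] [PreconnectedSpace X] (L L' : X → ℂ)
    (hL : Continuous L) (hL' : Continuous L') (h : ∀ x, exp (L x) = exp (L' x)) (x y : X) :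
    L y - L x = L' y - L' x := by
  have hc : Continuous (fun z => ((L z - L' z) / (2 * Real.pi * I)).re) := by fun_prop
  have hint : ∀ z, ∃ n : ℤ, (L z - L' z) / (2 * Real.pi * I) = n := by
    intro z
    obtain ⟨n, hn⟩ := Complex.exp_eq_exp_iff_exists_int.1 (h z)
    refine ⟨n, ?_⟩
    rw [hn, add_sub_cancel_left, mul_div_assoc, div_self, mul_one]
    exact Complex.two_pi_I_ne_zero
  have hz : ∀ z, (((((L z - L' z) / (2 * Real.pi * I)).re : ℝ)) : AddCircle (1 : ℝ)) = 0 := by
    intro z
    obtain ⟨n, hn⟩ := hint z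
    rw [hn, AddCircle.coe_eq_zero_iff]
    exact ⟨n, by simp⟩
  have key := (AddCircle.isCoveringMap_coe (1 : ℝ)).const_of_comp hc
    (fun a a' => by rw [hz a, hz a']) y x
  obtain ⟨n, hn⟩ := hint x
  obtain ⟨m, hm⟩ := hint y
  rw [hn, hm] at key
  have hnm : ((m : ℂ)) = n := by
    have : (m : ℝ) = n := by simpa using key
    exact_mod_cast this
  rw [div_eq_iff Complex.two_pi_I_ne_zero] at hn hm
  rw [hnm] at hm
  linear_combination hm - hn

/-- The variation of the logarithm of a nowhere vanishing function on the line from `0` to `1`. -/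
lemma var_exists (f : ℝ → ℂ) (hf : Continuous f) (h0 : ∀ x, f x ≠ 0) :
    ∃ W : ℂ, ∀ L : ℝ → ℂ, Continuous L → (∀ x, exp (L x) = f x) → L 1 - L 0 = W := by
  obtain ⟨L, hL, hL'⟩ := exists_log (0 : ℝ) f hf h0
  refine ⟨L 1 - L 0, fun L₂ hL₂ h₂ => ?_⟩
  exact log_unique L₂ L hL₂ hL (fun x => by rw [hL', h₂]) 0 1

open Classical in
/-- The variation of the logarithm of `f - q`. -/
noncomputable def W (f : ℝ → ℂ) (q : ℂ) : ℂ :=
  if h : Continuous f ∧ ∀ x, f x - q ≠ 0 then
    (var_exists (fun x => f x - q) (by have := h.1; fun_prop) h.2).choose else 0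

lemma W_spec (f : ℝ → ℂ) (q : ℂ) (hf : Continuous f) (h0 : ∀ x, f x - q ≠ 0) (L : ℝ → ℂ)
    (hL : Continuous L) (h : ∀ x, exp (L x) = f x - q) : L 1 - L 0 = W f q := by
  unfold W
  rw [dif_pos ⟨hf, h0⟩]
  exact (var_exists (fun x => f x - q) (by fun_prop) h0).choose_spec L hL h

lemma exp_W (f : ℝ → ℂ) (q : ℂ) (hf : Continuous f) (h0 : ∀ x, f x - q ≠ 0) :
    exp (W f q) * (f 0 - q) = f 1 - q := by
  obtain ⟨L, hL, hL'⟩ := exists_log (0 : ℝ) (fun x => f x - q) (by fun_prop) h0
  rw [← W_spec f q hf h0 L hL hL', exp_sub, hL', hL', div_mul_cancel₀ _ (h0 0)]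

/-- The square identity for two disjoint arcs. -/
lemma W_square (f g : ℝ → ℂ) (hf : Continuous f) (hg : Continuous g)
    (h : ∀ s t, f s ≠ g t) :
    W f (g 0) + W g (f 1) = W g (f 0) + W f (g 1) := by
  have hne : ∀ z : ℝ × ℝ, f z.1 - g z.2 ≠ 0 := fun z => sub_ne_zero.2 (h _ _)
  obtain ⟨L, hL, hL'⟩ := exists_log ((0, 0) : ℝ × ℝ) (fun z : ℝ × ℝ => f z.1 - g z.2)
    (by fun_prop) hne
  have e1 : L (1, 0) - L (0, 0) = W f (g 0) :=
    W_spec f (g 0) hf (fun x => sub_ne_zero.2 (h _ _)) (fun s => L (s, 0)) (by fun_prop)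
      (fun s => hL' (s, 0))
  have e2 : L (1, 1) - L (0, 1) = W f (g 1) :=
    W_spec f (g 1) hf (fun x => sub_ne_zero.2 (h _ _)) (fun s => L (s, 1)) (by fun_prop)
      (fun s => hL' (s, 1))
  have e3 : (L (0, 1) + Real.pi * I) - (L (0, 0) + Real.pi * I) = W g (f 0) :=
    W_spec g (f 0) hg (fun x => sub_ne_zero.2 (h _ _).symm)
      (fun s => L (0, s) + Real.pi * I) (by fun_prop)
      (fun s => by rw [exp_add, hL' (0, s), exp_pi_mul_I]; ring)
  have e4 : (L (1, 1) + Real.pi * I) - (L (1, 0) + Real.pi * I) = W g (f 1) :=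
    W_spec g (f 1) hg (fun x => sub_ne_zero.2 (h _ _).symm)
      (fun s => L (1, s) + Real.pi * I) (by fun_prop)
      (fun s => by rw [exp_add, hL' (1, s), exp_pi_mul_I]; ring)
  linear_combination (-e1) + e2 + e3 - e4

/-- The sign cocycle. -/
def sg (x y : Fin 5) : ℤ := if x < y then 0 else 1

/-- **Van Kampen's obstruction for `K₅`.** -/
theorem van_kampen_five (p : Fin 5 → ℂ) (g : Fin 5 → Fin 5 → unitInterval → ℂ)
    (hg : ∀ i j, i < j → Continuous (g i j))
    (h0 : ∀ i j, i < j → g i j 0 = p i) (h1 : ∀ i j, i < j → g i j 1 = p j)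
    (hd : ∀ i j k l, i < j → k < l → i ≠ k → i ≠ l → j ≠ k → j ≠ l →
      ∀ s t, g i j s ≠ g k l t) : False := by
  classical
  -- the five points are distinct
  have hp : ∀ x y : Fin 5, x ≠ y → p x ≠ p y := by
    have key : ∀ x y : Fin 5, x < y → p x ≠ p y := by
      intro x y hxy
      obtain ⟨u, v, hux, hvx, huy, hvy, huv⟩ : ∃ u v : Fin 5, u ≠ x ∧ v ≠ x ∧ u ≠ y ∧ v ≠ y ∧
          u ≠ v := by
        revert x y; decide
      rcases lt_or_gt_of_ne hux with h1' | h1' <;> rcases lt_or_gt_of_ne hvy with h2' | h2'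
      · have := hd u x v y h1' h2' huv huy hvx.symm hxy.ne 1 1
        rwa [h1 _ _ h1', h1 _ _ h2'] at this
      · have := hd u x y v h1' h2' huy huv hxy.ne hvx.symm 1 0
        rwa [h1 _ _ h1', h0 _ _ h2'] at this
      · have := hd x u v y h1' h2' hvx.symm hxy.ne huv huy 0 1
        rwa [h0 _ _ h1', h1 _ _ h2'] at this
      · have := hd x u y v h1' h2' hxy.ne hvx.symm huy huv 0 0
        rwa [h0 _ _ h1', h0 _ _ h2'] at this
    intro x y hxy
    rcases lt_or_gt_of_ne hxy with h | h
    · exact key x y h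
    · exact (key y x h).symm
  -- extended arcs
  let G : Fin 5 → Fin 5 → ℝ → ℂ := fun i j s => g i j (projIcc 0 1 zero_le_one s)
  have hG : ∀ i j, i < j → Continuous (G i j) := fun i j hij =>
    (hg i j hij).comp continuous_projIcc
  have hG0 : ∀ i j, i < j → G i j 0 = p i := fun i j hij => by
    rw [← h0 i j hij]
    change g i j (projIcc 0 1 zero_le_one 0) = g i j 0
    rw [projIcc_left]; rfl
  have hG1 : ∀ i j, i < j → G i j 1 = p j := fun i j hij => by
    rw [← h1 i j hij]
    change g i j (projIcc 0 1 zero_le_one 1) = g i j 1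
    rw [projIcc_right]; rfl
  have hGd : ∀ i j k l, i < j → k < l → i ≠ k → i ≠ l → j ≠ k → j ≠ l →
      ∀ s t, G i j s ≠ G k l t := fun i j k l a b c d e f s t => hd i j k l a b c d e f _ _
  -- an arc misses the other points
  have hGp : ∀ a b c, a < b → c ≠ a → c ≠ b → ∀ s, G a b s - p c ≠ 0 := by
    intro a b c hab hca hcb s
    obtain ⟨d, hda, hdb, hdc⟩ : ∃ d : Fin 5, d ≠ a ∧ d ≠ b ∧ d ≠ c := by
      clear hp hG hG0 hG1 hGd
      revert a b c; decide
    rw [sub_ne_zero]
    rcases lt_or_gt_of_ne hdc with h | h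
    · have := hGd a b d c hab h hda.symm hca.symm hdb.symm hcb.symm s 1
      rwa [hG1 _ _ h] at this
    · have := hGd a b c d hab h hca.symm hda.symm hcb.symm hdb.symm s 0
      rwa [hG0 _ _ h] at this
  -- logarithms of the differences
  let A : Fin 5 → Fin 5 → ℂ := fun x y =>
    if x < y then log (p x - p y) else log (p y - p x) + Real.pi * I
  have hA : ∀ x y, x ≠ y → exp (A x y) = p x - p y := by
    intro x y hxy
    by_cases h : x < y
    · simp only [A, if_pos h]
      exact exp_log (sub_ne_zero.2 (hp x y hxy))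
    · simp only [A, if_neg h]
      rw [exp_add, exp_log (sub_ne_zero.2 (hp y x hxy.symm)), exp_pi_mul_I]
      ring
  have hAs : ∀ x y : Fin 5, x ≠ y →
      A x y - A y x = ((sg x y - sg y x : ℤ) : ℂ) * (Real.pi * I) := by
    intro x y hxy
    rcases lt_or_gt_of_ne hxy with h | h
    · simp only [A, sg, if_pos h, if_neg h.not_gt]
      push_cast; ring
    · simp only [A, sg, if_pos h, if_neg h.not_gt]
      push_cast; ring
  -- integers
  have hn : ∀ a b c : Fin 5, ∃ n : ℤ, a < b → c ≠ a → c ≠ b →
      W (G a b) (p c) = A b c - A a c + n * (2 * Real.pi * I) := by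
    intro a b c
    by_cases hcond : a < b ∧ c ≠ a ∧ c ≠ b
    · obtain ⟨hab, hca, hcb⟩ := hcond
      have e := exp_W (G a b) (p c) (hG a b hab) (hGp a b c hab hca hcb)
      rw [hG0 a b hab, hG1 a b hab, ← hA a c hca.symm, ← hA b c hcb.symm, ← exp_add] at e
      obtain ⟨n, hn⟩ := Complex.exp_eq_exp_iff_exists_int.1 e
      exact ⟨n, fun _ _ _ => by linear_combination hn⟩
    · exact ⟨0, fun h1 h2 h3 => (hcond ⟨h1, h2, h3⟩).elim⟩
  choose n hn using hn
  -- the integer equation for two disjoint edges
  have key : ∀ a b c d : Fin 5, a < b → c < d → a ≠ c → a ≠ d → b ≠ c → b ≠ d →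
      (sg b c - sg c b) + (sg c a - sg a c) + (sg d b - sg b d) + (sg a d - sg d a) +
        2 * (n a b c + n c d b - n a b d - n c d a) = 0 := by
    intro a b c d hab hcd hac had hbc hbd
    have e := W_square (G a b) (G c d) (hG a b hab) (hG c d hcd)
      (hGd a b c d hab hcd hac had hbc hbd)
    rw [hG0 a b hab, hG1 a b hab, hG0 c d hcd, hG1 c d hcd,
      hn a b c hab hac.symm hbc.symm, hn a b d hab had.symm hbd.symm,
      hn c d a hcd hac had, hn c d b hcd hbc hbd] at e
    have e1 := hAs b c hbc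
    have e2 := hAs c a hac.symm
    have e3 := hAs d b hbd.symm
    have e4 := hAs a d had
    have hpi : (Real.pi * I : ℂ) ≠ 0 := by
      intro h
      apply Complex.two_pi_I_ne_zero
      linear_combination 2 * h
    have : (((sg b c - sg c b) + (sg c a - sg a c) + (sg d b - sg b d) + (sg a d - sg d a) +
        2 * (n a b c + n c d b - n a b d - n c d a) : ℤ) : ℂ) * (Real.pi * I) = 0 := by
      push_cast at e1 e2 e3 e4 ⊢
      linear_combination e - e1 - e2 - e3 - e4
    rcases mul_eq_zero.1 this with h | h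
    · exact_mod_cast h
    · exact (hpi h).elim
  have k1 := key 0 1 2 3 (by decide) (by decide) (by decide) (by decide) (by decide) (by decide)
  have k2 := key 0 2 1 3 (by decide) (by decide) (by decide) (by decide) (by decide) (by decide)
  have k3 := key 0 3 1 2 (by decide) (by decide) (by decide) (by decide) (by decide) (by decide)
  have k4 := key 0 1 2 4 (by decide) (by decide) (by decide) (by decide) (by decide) (by decide)
  have k5 := key 0 2 1 4 (by decide) (by decide) (by decide) (by decide) (by decide) (by decide)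
  have k6 := key 0 4 1 2 (by decide) (by decide) (by decide) (by decide) (by decide) (by decide)
  have k7 := key 0 1 3 4 (by decide) (by decide) (by decide) (by decide) (by decide) (by decide)
  have k8 := key 0 3 1 4 (by decide) (by decide) (by decide) (by decide) (by decide) (by decide)
  have k9 := key 0 4 1 3 (by decide) (by decide) (by decide) (by decide) (by decide) (by decide)
  have k10 := key 0 2 3 4 (by decide) (by decide) (by decide) (by decide) (by decide) (by decide)
  have k11 := key 0 3 2 4 (by decide) (by decide) (by decide) (by decide) (by decide) (by decide)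
  have k12 := key 0 4 2 3 (by decide) (by decide) (by decide) (by decide) (by decide) (by decide)
  have k13 := key 1 2 3 4 (by decide) (by decide) (by decide) (by decide) (by decide) (by decide)
  have k14 := key 1 3 2 4 (by decide) (by decide) (by decide) (by decide) (by decide) (by decide)
  have k15 := key 1 4 2 3 (by decide) (by decide) (by decide) (by decide) (by decide) (by decide)
  have hsg : ∀ x y : Fin 5, sg x y = if x < y then 0 else 1 := fun x y => rfl
  simp [hsg] at k1 k2 k3 k4 k5 k6 k7 k8 k9 k10 k11 k12 k13 k14 k15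
  omega

/-- A space containing five points joined pairwise by arcs, vertex-disjoint arcs being
disjoint, has no continuous injection into the plane. -/
theorem no_embedding {X : Type*} [TopologicalSpace X] (v : Fin 5 → X)
    (e : Fin 5 → Fin 5 → unitInterval → X)
    (hg : ∀ i j, i < j → Continuous (e i j))
    (h0 : ∀ i j, i < j → e i j 0 = v i) (h1 : ∀ i j, i < j → e i j 1 = v j)
    (hd : ∀ i j k l, i < j → k < l → i ≠ k → i ≠ l → j ≠ k → j ≠ l →
      ∀ s t, e i j s ≠ e k l t)
    (φ : X → EuclideanSpace ℝ (Fin 2)) (hφ : Continuous φ) (hinj : Function.Injective φ) :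
    False := by
  let ψ : EuclideanSpace ℝ (Fin 2) → ℂ := fun x => ⟨x 0, x 1⟩
  have hψ : Continuous ψ := by
    have : ψ = fun x => ((x 0 : ℝ) : ℂ) + ((x 1 : ℝ) : ℂ) * I := by
      funext x; apply Complex.ext <;> simp [ψ]
    rw [this]; fun_prop
  have hψi : Function.Injective ψ := by
    intro x y hxy
    have h0' := congrArg Complex.re hxy
    have h1' := congrArg Complex.im hxy
    ext i
    fin_cases i
    · exact h0'
    · exact h1'
  refine van_kampen_five (fun i => ψ (φ (v i))) (fun i j s => ψ (φ (e i j s)))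
    (fun i j hij => hψ.comp (hφ.comp (hg i j hij))) (fun i j hij => by simp [h0 i j hij])
    (fun i j hij => by simp [h1 i j hij]) ?_
  intro i j k l a b c d e' f s t hst
  exact hd i j k l a b c d e' f s t (hinj (hψi hst))

end Pool.Agent.H93K
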